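import Pool.Agent.H86.CMLib9.W5h25.AS.Main
import Pool.Agent.H86.CMLib.R912.Q.AV2

set_option autoImplicit false
set_option linter.unusedSectionVars false
set_option linter.unusedVariables false
set_option linter.unusedSimpArgs false

/-!
# Abelian varieties without factors of type IV whose central eigenspaces have dimension at most four
-/

open Module Function TensorProduct Matrix

noncomputable section

namespace Pool.Agent.W5h25.AS

open Pool.Agent.R912 Pool.Agent.Y102 Pool.Agent.W516.DR Pool.Agent.H204R3.GP Pool.Agent.W516.KC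
  Pool.Agent.H204R3.SP

theorem main' {U : Type} [AddCommGroup U] [Module ℂ U] [FiniteDimensional ℂ U]
    {L : Submodule ℂ (Module.End ℂ U)} {ω : U →ₗ[ℂ] U →ₗ[ℂ] ℂ} (H : Hyp4 L ω) {ι : Type}
    [Fintype ι] [DecidableEq ι] {Ψ : MultilinearMap ℂ (fun _ : ι => U) ℂ} (hA : IsAlt Ψ)
    (hΨ : L ≤ KL Ψ) {X : Module.End ℂ U}
    (hX1 : ∀ P : Submodule ℂ U, (∀ x ∈ L, ∀ u ∈ P, x u ∈ P) → ∀ u ∈ P, X u ∈ P)
    (hX2 : ∀ K : Module.End ℂ U, (∀ x ∈ L, x * K = K * x) → X * K = K * X)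
    (hX3 : ∀ u v, ω (X u) v + ω u (X v) = 0) : X ∈ KL Ψ := by
  rcases subsingleton_or_nontrivial U with h | h
  · have h0 : X = 0 := LinearMap.ext fun u => Subsingleton.elim _ _
    rw [h0]
    exact (KL Ψ).zero_mem
  · exact main H hA hΨ hX1 hX2 hX3

section Alt

variable {W : Type} [AddCommGroup W] [Module ℚ W] [FiniteDimensional ℚ W]

/-- The base change of an alternating form is alternating. -/
theorem isAlt_bcm {ν : Type} [Fintype ν] [DecidableEq ν] (β : Basis ν ℚ W) {κ : Type} [Fintype κ]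
    [DecidableEq κ] (φ : W [⋀^κ]→ₗ[ℚ] ℚ) : IsAlt (bcm (Ω := ℂ) β φ.toMultilinearMap) := by
  obtain ⟨Ψ, hΨ⟩ : ∃ Ψ, Ψ = bcm (Ω := ℂ) β φ.toMultilinearMap := ⟨_, rfl⟩
  rw [← hΨ]
  intro v i j hij hv
  have h1 : Ψ.domDomCongr (Equiv.swap i j) = -Ψ := by
    refine Basis.ext_multilinear (fun _ => β.baseChange ℂ) fun I => ?_
    rw [_root_.neg_apply, MultilinearMap.domDomCongr_apply, hΨ]
    have h2 := bcm_basis (Ω := ℂ) β φ.toMultilinearMap (fun l => I (Equiv.swap i j l))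
    have h3 := bcm_basis (Ω := ℂ) β φ.toMultilinearMap I
    rw [h2, h3, ← map_neg]
    congr 1
    exact φ.map_swap (fun l => β (I l)) hij
  have h2 : Ψ (fun l => v (Equiv.swap i j l)) = -Ψ v :=
    congrArg (fun F : MultilinearMap ℂ (fun _ : κ => ℂ ⊗[ℚ] W) ℂ => F v) h1
  have h3 : (fun l => v (Equiv.swap i j l)) = v := by
    funext l
    by_cases h4 : l = i
    · rw [h4, Equiv.swap_apply_left, hv]
    · by_cases h5 : l = j
      · rw [h5, Equiv.swap_apply_right, hv]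
      · rw [Equiv.swap_apply_of_ne_of_ne h4 h5]
  rw [h3] at h2
  linear_combination (1 / 2) * h2

end Alt

section Rep

variable {g : ℕ} (A : AbVar g)

/-- The common eigenspace of the centre of the algebra of the endomorphisms. -/
def ceig (c : Module.End ℚ A.H1 → ℂ) : Submodule ℂ (ℂ ⊗[ℚ] A.H1) where
  carrier := {u | ∀ P ∈ ZC A, P.baseChange ℂ u = c P • u}
  zero_mem' := fun P _ => by rw [map_zero, smul_zero]
  add_mem' := fun {u v} hu hv P hP => by rw [map_add, hu P hP, hv P hP, smul_add]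
  smul_mem' := fun r u hu P hP => by rw [map_smul, hu P hP, smul_comm]

variable {A}

theorem pk_le_ceig {N : Submodule ℂ (ℂ ⊗[ℚ] A.H1)} (hN : IrrSub (cx A.LA) N) :
    ∃ c, PK (cx A.LA) N ≤ ceig A c := by
  have hadj : ∀ P ∈ ZC A, P.baseChange ℂ ∈
      Algebra.adjoin ℂ (cx A.LA : Set (Module.End ℂ (ℂ ⊗[ℚ] A.H1))) := fun P hP =>
    bc_adjoin (mem_adjoin_of_comm A.semi_LA fun Q hQ => hP.2 Q hQ)
  have hLcomm : ∀ P ∈ ZC A, ∀ x ∈ cx A.LA, x * P.baseChange ℂ = P.baseChange ℂ * x := by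
    intro P hP x hx
    exact (cx_commutes A (S := A.LA) (T := A.EA) (fun X hX Y hY => hY X hX) x hx _
      (bc_mem hP.1))
  have key : ∀ P ∈ ZC A, ∃ r : ℂ, ∀ u ∈ N, P.baseChange ℂ u = r • u := by
    intro P hP
    have hPN : ∀ u ∈ N, P.baseChange ℂ u ∈ N :=
      Pool.Agent.Y102.SP.kil_adj _ N hN.stab _ (hadj P hP)
    have : Nontrivial N := Submodule.nontrivial_iff_ne_bot.2 hN.ne
    obtain ⟨r, hr⟩ := Module.End.exists_eigenvalue ((P.baseChange ℂ).restrict hPN)
    obtain ⟨v, hv⟩ := hr.exists_hasEigenvector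
    have hv1 : P.baseChange ℂ v.1 = r • v.1 := congrArg Subtype.val hv.apply_eq_smul
    have h1 := hN.irr (N ⊓ LinearMap.ker (P.baseChange ℂ - r • 1)) inf_le_left
      (fun x hx u hu => ⟨hN.stab x hx u hu.1, by
        have h2 : (P.baseChange ℂ - r • 1) u = 0 := hu.2
        rw [LinearMap.sub_apply, LinearMap.smul_apply, Module.End.one_apply, sub_eq_zero] at h2
        rw [SetLike.mem_coe, LinearMap.mem_ker, LinearMap.sub_apply, LinearMap.smul_apply,
          Module.End.one_apply, sub_eq_zero]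
        have h3 := LinearMap.congr_fun (hLcomm P hP x hx) u
        rw [Module.End.mul_apply, Module.End.mul_apply, h2, map_smul] at h3
        exact h3.symm⟩) (by
      intro hb
      have h2 : v.1 ∈ N ⊓ LinearMap.ker (P.baseChange ℂ - r • 1) := by
        refine ⟨v.2, ?_⟩
        rw [SetLike.mem_coe, LinearMap.mem_ker, LinearMap.sub_apply, LinearMap.smul_apply,
          Module.End.one_apply, hv1, sub_self]
      rw [hb, Submodule.mem_bot] at h2
      exact hv.2 (Subtype.ext h2))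
    refine ⟨r, fun u hu => ?_⟩
    rw [← h1] at hu
    have h2 : (P.baseChange ℂ - r • 1) u = 0 := hu.2
    rwa [LinearMap.sub_apply, LinearMap.smul_apply, Module.End.one_apply, sub_eq_zero] at h2
  classical
  refine ⟨fun P => if h : P ∈ ZC A then (key P h).choose else 0, ?_⟩
  unfold PK
  rw [Submodule.span_le]
  rintro _ ⟨k, hk, u, hu, rfl⟩ P hP
  have h1 := (key P hP).choose_spec u hu
  have h2 : P.baseChange ℂ * k = k * P.baseChange ℂ :=
    adj_comL (hadj P hP) k fun y hy => hk y hy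
  have h3 := LinearMap.congr_fun h2 u
  rw [Module.End.mul_apply, Module.End.mul_apply, h1, map_smul] at h3
  rw [h3]
  change _ = (if h : P ∈ ZC A then (key P h).choose else 0) • k u
  rw [dif_pos hP]

theorem hyp4 (hZ : NoTypeIV A) (hE : ∀ c, finrank ℂ (ceig A c) ≤ 4) :
    Hyp4 (cx A.LA) (omC A) where
  toTHyp := hZ.thyp
  pk := fun N hN => by
    obtain ⟨c, hc⟩ := pk_le_ceig hN
    exact (Submodule.finrank_mono hc).trans (hE c)

end Rep

/-- **Main theorem**: the de Rham-Betti classes are killed by the skew endomorphisms commuting with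
the endomorphisms. -/
theorem surf_kills {g : ℕ} (A : AbVar g) (hZ : NoTypeIV A) (hE : ∀ c, finrank ℂ (ceig A c) ≤ 4)
    {k : ℕ} (φ : A.H1 [⋀^Fin k × Fin 2]→ₗ[ℚ] ℚ)
    (hφ : IsDeRhamBettiForm QBar A.dR Pool.Agent.Y102.tau k φ.toMultilinearMap) {X : Module.End ℚ A.H1}
    (hX1 : IsSkew A.om X) (hX2 : ∀ Q ∈ A.EA, X * Q = Q * X) :
    Kills X φ.toMultilinearMap := by
  classical
  let β := Module.finBasis ℚ A.H1
  obtain ⟨Ψ, hΨ⟩ : ∃ Ψ, Ψ = bcm (Ω := ℂ) β φ.toMultilinearMap := ⟨_, rfl⟩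
  have hA : IsAlt Ψ := hΨ ▸ isAlt_bcm β φ
  have hL : cx A.LA ≤ KL Ψ := by
    intro x hx
    rw [mem_KL, hΨ, kills_bcm_iff]
    intro lam
    exact A.kills_of_mem hφ (cmp_of_ext A.LA hx lam)
  have hadj : X ∈ Algebra.adjoin ℚ (A.LA : Set (Module.End ℚ A.H1)) :=
    mem_adjoin_of_comm A.semi_LA fun P hP => hX2 P hP
  have hadj' := bc_adjoin hadj
  have hmain : X.baseChange ℂ ∈ KL Ψ := by
    refine main' (hyp4 hZ hE) hA hL ?_ ?_ ?_
    · intro P hP
      exact Pool.Agent.Y102.SP.kil_adj _ P hP _ hadj'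
    · exact fun K hK => adj_comL hadj' K hK
    · exact skew_ext A.om (omC A) (omC_tmul A) hX1
  rw [mem_KL, hΨ, kills_bcm_iff] at hmain
  obtain ⟨lam, hlam⟩ := exists_lam
  have h2 := hmain lam
  have h3 : Pool.Agent.W516.DR.cmpE lam (X.baseChange ℂ) = X := by
    refine LinearMap.ext fun w => ?_
    rw [Pool.Agent.W516.DR.cmpE_apply, LinearMap.baseChange_tmul,
      Pool.Agent.W516.DR.cmp_tmul, hlam, one_smul]
  rwa [h3] at h2

theorem surf_hodge {g : ℕ} (A : AbVar g) (hZ : NoTypeIV A) (hE : ∀ c, finrank ℂ (ceig A c) ≤ 4)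
    {k : ℕ} (φ : A.H1 [⋀^Fin k × Fin 2]→ₗ[ℚ] ℚ)
    (hφ : IsDeRhamBettiForm QBar A.dR Pool.Agent.Y102.tau k φ.toMultilinearMap) :
    IsHodgeTensor (A.per : A.H1 →+ (Fin g → ℂ)) φ.toMultilinearMap :=
  hodge_of_kills _ A.isRationalStructure _ fun Z hZ' =>
    surf_kills A hZ hE φ hφ (A.NA_skew (A.MA_le_NA hZ')) fun Q hQ => A.NA_comm (A.MA_le_NA hZ') hQ

end Pool.Agent.W5h25.AS
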