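import Pool.Agent.H86.CMLib9.W5h25.AS.Act
import Pool.Agent.H86.CMLib9.W5h25.AS.Alt
import Pool.Agent.H86.CMLib9.W5h25.AS.Tau

set_option autoImplicit false
set_option linter.unusedSectionVars false
set_option linter.unusedVariables false
set_option linter.unusedSimpArgs false

/-!
# The symplectic Lie algebras of the irreducible subspaces of dimension four kill the form
-/

open Module Pool.Agent.R912 Pool.Agent.R912.Q Pool.Agent.Y102.SP

namespace Pool.Agent.W5h25.AS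

attribute [local instance 100] LieRing.ofAssociativeRing

variable {U : Type} [AddCommGroup U] [Module ℂ U] [FiniteDimensional ℂ U]
  {T : Type} [AddCommGroup T] [Module ℂ T] {L : Submodule ℂ (Module.End ℂ U)}

/-- raising and lowering operators -/
def Frame (L : Submodule ℂ (Module.End ℂ U)) (a b c d : U) : Prop :=
  ∃ e ∈ L, ∃ f ∈ L, ∃ e1 e2 e3 f1 f2 f3 : ℂ, e1 ≠ 0 ∧ e2 ≠ 0 ∧ e3 ≠ 0 ∧ f1 ≠ 0 ∧ f2 ≠ 0 ∧ f3 ≠ 0 ∧
    e a = 0 ∧ e b = e1 • a ∧ e c = e2 • b ∧ e d = e3 • c ∧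
    f a = f1 • b ∧ f b = f2 • c ∧ f c = f3 • d ∧ f d = 0

section

variable {S : RS L T} {N : Submodule ℂ U}

theorem zero_of (hN : Stab L N) {γ χ : Module.Dual ℂ T} (hγ : γ ∈ S.R.Φ) {u : U} (hu : u ∈ N)
    (hχ : u ∈ usp S.ι χ) (h : γ + χ ∉ wts S N) : S.e γ u = 0 := by
  by_contra hne
  exact h ⟨_, hN _ (S.emem _ hγ) _ hu, hne, S.usp_mul (fun t => S.wt γ hγ t) hχ⟩

theorem nz_of {γ χ : Module.Dual ℂ T} (hγ : γ ∈ S.R.Φ) {u : U} (hu : u ≠ 0)
    (hχ : u ∈ usp S.ι χ) (h : S.R.pr γ χ = -1) : S.e γ u ≠ 0 := by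
  have h1 := S.uinj (S.R.neg _ hγ) hχ hu (n := 1) (by rw [S.R.pneg _ hγ, h]; norm_num) (k := 1)
    le_rfl
  rwa [neg_neg, pow_one] at h1

theorem wt_mem {γ χ ψ : Module.Dual ℂ T} (hγ : γ ∈ S.R.Φ) {u : U} (hχ : u ∈ usp S.ι χ)
    (h : γ + χ = ψ) : S.e γ u ∈ usp S.ι ψ := by
  rw [← h]
  exact S.usp_mul (fun t => S.wt γ hγ t) hχ

variable {ω : U →ₗ[ℂ] U →ₗ[ℂ] ℂ} {φ : Module.Dual ℂ T →ₗ[ℚ] ℚ} {lam mu : Module.Dual ℂ T}
  {a b c d : U}

theorem frame_I (W : W4 S ω N φ lam mu a b c d) (hm : mu + mu ∈ S.R.Φ)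
    (hl : lam = mu + mu + mu) : Frame L a b c d := by
  have hNs : Stab L N := W.irr.stab
  have hp := W.pos
  have hlt := W.lt
  have hn := S.R.neg _ hm
  have hW : ∀ χ ∈ wts S N, χ = lam ∨ χ = mu ∨ χ = -mu ∨ χ = -lam := by
    intro χ hχ
    rw [W.w] at hχ
    simpa only [Set.mem_insert_iff, Set.mem_singleton_iff] using hχ
  have out1 : ∀ χ : Module.Dual ℂ T, φ lam < φ χ → χ ∉ wts S N := by
    intro χ h hχ
    rcases hW χ hχ with rfl | rfl | rfl | rfl
    · exact lt_irrefl _ h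
    · linarith
    · rw [map_neg] at h; linarith
    · rw [map_neg] at h; linarith
  have out2 : ∀ χ : Module.Dual ℂ T, φ χ < -φ lam → χ ∉ wts S N := by
    intro χ h hχ
    rcases hW χ hχ with rfl | rfl | rfl | rfl
    · linarith
    · linarith
    · rw [map_neg] at h; linarith
    · rw [map_neg] at h; linarith
  have hmm : S.R.pr (mu + mu) mu = 1 := by
    have := S.R.two _ hm
    rw [map_add] at this
    linarith
  obtain ⟨e1, h1⟩ := W.sa _ (hNs _ (S.emem _ hm) _ W.mb) (wt_mem hm W.wb (by rw [hl]))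
  obtain ⟨e2, h2⟩ := W.sb _ (hNs _ (S.emem _ hm) _ W.mc) (wt_mem hm W.wc (by abel))
  obtain ⟨e3, h3⟩ := W.sc _ (hNs _ (S.emem _ hm) _ W.md) (wt_mem hm W.wd (by rw [hl]; abel))
  obtain ⟨f1, k1⟩ := W.sb _ (hNs _ (S.emem _ hn) _ W.ma) (wt_mem hn W.wa (by rw [hl]; abel))
  obtain ⟨f2, k2⟩ := W.sc _ (hNs _ (S.emem _ hn) _ W.mb) (wt_mem hn W.wb (by abel))
  obtain ⟨f3, k3⟩ := W.sd _ (hNs _ (S.emem _ hn) _ W.mc) (wt_mem hn W.wc (by rw [hl]; abel))
  have he : e3 ≠ 0 ∧ e2 ≠ 0 ∧ e1 ≠ 0 := by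
    have h4 := S.uinj hn W.wd W.d0 (n := 3) (by
      rw [S.R.pneg _ hm, hl, map_neg, map_add, map_add, hmm]; norm_num) (k := 3) le_rfl
    rw [neg_neg] at h4
    have h5 : ((S.e (mu + mu)) ^ 3) d = S.e (mu + mu) (S.e (mu + mu) (S.e (mu + mu) d)) := by
      rw [pow_succ, pow_succ, pow_one]; rfl
    rw [h5, h3, map_smul, h2, map_smul, map_smul, h1, smul_smul, smul_smul] at h4
    refine ⟨?_, ?_, ?_⟩ <;> rintro rfl <;> simp at h4
  have hf : f1 ≠ 0 ∧ f2 ≠ 0 ∧ f3 ≠ 0 := by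
    have h4 := S.uinj hm W.wa W.a0 (n := 3) (by
      rw [hl, map_add, map_add, hmm]; norm_num) (k := 3) le_rfl
    have h5 : ((S.e (-(mu + mu))) ^ 3) a =
        S.e (-(mu + mu)) (S.e (-(mu + mu)) (S.e (-(mu + mu)) a)) := by
      rw [pow_succ, pow_succ, pow_one]; rfl
    rw [h5, k1, map_smul, k2, map_smul, map_smul, k3, smul_smul, smul_smul] at h4
    refine ⟨?_, ?_, ?_⟩ <;> rintro rfl <;> simp at h4
  refine ⟨S.e (mu + mu), S.emem _ hm, S.e (-(mu + mu)), S.emem _ hn, e1, e2, e3, f1, f2, f3,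
    he.2.2, he.2.1, he.1, hf.1, hf.2.1, hf.2.2, ?_, h1, h2, h3, k1, k2, k3, ?_⟩
  · refine zero_of hNs hm W.ma W.wa (out1 _ ?_)
    rw [map_add, map_add]
    linarith
  · refine zero_of hNs hn W.md W.wd (out2 _ ?_)
    rw [map_add, map_neg, map_add, map_neg]
    linarith

theorem frame_II (W : W4 S ω N φ lam mu a b c d) (hII : TII S lam mu) : Frame L a b c d := by
  have hNs : Stab L N := W.irr.stab
  have hm := hII.m2
  have hn := S.R.neg _ hm
  have hs := hII.sub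
  have ht := S.R.neg _ hs
  have out : ∀ χ : Module.Dual ℂ T, (S.R.pr (lam + lam) χ) ^ 2 + (S.R.pr (mu + mu) χ) ^ 2 ≠ 1 →
      χ ∉ wts S N := by
    intro χ h hχ
    rw [W.w] at hχ
    simp only [Set.mem_insert_iff, Set.mem_singleton_iff] at hχ
    apply h
    rcases hχ with rfl | rfl | rfl | rfl
    · rw [hII.ll, hII.ml]; norm_num
    · rw [hII.lm, hII.mm]; norm_num
    · rw [map_neg, map_neg, hII.lm, hII.mm]; norm_num
    · rw [map_neg, map_neg, hII.ll, hII.ml]; norm_num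
  obtain ⟨e1, h1⟩ := W.sa _ (hNs _ (S.emem _ hs) _ W.mb) (wt_mem hs W.wb (by abel))
  obtain ⟨e2, h2⟩ := W.sb _ (hNs _ (S.emem _ hm) _ W.mc) (wt_mem hm W.wc (by abel))
  obtain ⟨e3, h3⟩ := W.sc _ (hNs _ (S.emem _ hs) _ W.md) (wt_mem hs W.wd (by abel))
  obtain ⟨f1, k1⟩ := W.sb _ (hNs _ (S.emem _ ht) _ W.ma) (wt_mem ht W.wa (by abel))
  obtain ⟨f2, k2⟩ := W.sc _ (hNs _ (S.emem _ hn) _ W.mb) (wt_mem hn W.wb (by abel))
  obtain ⟨f3, k3⟩ := W.sd _ (hNs _ (S.emem _ ht) _ W.mc) (wt_mem ht W.wc (by abel))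
  have e10 : e1 ≠ 0 := by
    rintro rfl
    rw [zero_smul] at h1
    exact nz_of hs W.b0 W.wb hII.sm h1
  have e20 : e2 ≠ 0 := by
    rintro rfl
    rw [zero_smul] at h2
    exact nz_of hm W.c0 W.wc (by rw [map_neg, hII.mm]) h2
  have e30 : e3 ≠ 0 := by
    rintro rfl
    rw [zero_smul] at h3
    exact nz_of hs W.d0 W.wd (by rw [map_neg, hII.sl]) h3
  have f10 : f1 ≠ 0 := by
    rintro rfl
    rw [zero_smul] at k1
    exact nz_of ht W.a0 W.wa (by rw [S.R.pneg _ hs, hII.sl]) k1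
  have f20 : f2 ≠ 0 := by
    rintro rfl
    rw [zero_smul] at k2
    exact nz_of hn W.b0 W.wb (by rw [S.R.pneg _ hm, hII.mm]) k2
  have f30 : f3 ≠ 0 := by
    rintro rfl
    rw [zero_smul] at k3
    exact nz_of ht W.c0 W.wc (by rw [S.R.pneg _ hs, map_neg, hII.sm]; norm_num) k3
  have z : ∀ {γ χ : Module.Dual ℂ T} {u : U}, γ ∈ S.R.Φ → u ∈ N → u ∈ usp S.ι χ →
      (S.R.pr (lam + lam) (γ + χ)) ^ 2 + (S.R.pr (mu + mu) (γ + χ)) ^ 2 ≠ 1 → S.e γ u = 0 :=
    fun hγ hu hχ h => zero_of hNs hγ hu hχ (out _ h)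
  refine ⟨S.e (lam - mu) + S.e (mu + mu), L.add_mem (S.emem _ hs) (S.emem _ hm),
    S.e (-(lam - mu)) + S.e (-(mu + mu)), L.add_mem (S.emem _ ht) (S.emem _ hn),
    e1, e2, e3, f1, f2, f3, e10, e20, e30, f10, f20, f30, ?_, ?_, ?_, ?_, ?_, ?_, ?_, ?_⟩
  · rw [LinearMap.add_apply, z hs W.ma W.wa, z hm W.ma W.wa, add_zero]
    · simp only [map_add, map_sub, map_neg, hII.ll, hII.lm, hII.ml, hII.mm]; norm_num
    · simp only [map_add, map_sub, map_neg, hII.ll, hII.lm, hII.ml, hII.mm]; norm_num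
  · rw [LinearMap.add_apply, h1, z hm W.mb W.wb, add_zero]
    simp only [map_add, map_sub, map_neg, hII.ll, hII.lm, hII.ml, hII.mm]; norm_num
  · rw [LinearMap.add_apply, h2, z hs W.mc W.wc, zero_add]
    simp only [map_add, map_sub, map_neg, hII.ll, hII.lm, hII.ml, hII.mm]; norm_num
  · rw [LinearMap.add_apply, h3, z hm W.md W.wd, add_zero]
    simp only [map_add, map_sub, map_neg, hII.ll, hII.lm, hII.ml, hII.mm]; norm_num
  · rw [LinearMap.add_apply, k1, z hn W.ma W.wa, add_zero]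
    simp only [map_add, map_sub, map_neg, hII.ll, hII.lm, hII.ml, hII.mm]; norm_num
  · rw [LinearMap.add_apply, k2, z ht W.mb W.wb, zero_add]
    simp only [map_add, map_sub, map_neg, hII.ll, hII.lm, hII.ml, hII.mm]; norm_num
  · rw [LinearMap.add_apply, k3, z hn W.mc W.wc, add_zero]
    simp only [map_add, map_sub, map_neg, hII.ll, hII.lm, hII.ml, hII.mm]; norm_num
  · rw [LinearMap.add_apply, z ht W.md W.wd, z hn W.md W.wd, add_zero]
    · simp only [map_add, map_sub, map_neg, hII.ll, hII.lm, hII.ml, hII.mm]; norm_num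
    · simp only [map_add, map_sub, map_neg, hII.ll, hII.lm, hII.ml, hII.mm]; norm_num

end

section TypeII

variable {S : RS L T} {N : Submodule ℂ U} {ω : U →ₗ[ℂ] U →ₗ[ℂ] ℂ} (H : Hyp4 L ω)
  {φ : Module.Dual ℂ T →ₗ[ℚ] ℚ} {lam mu : Module.Dual ℂ T} {a b c d : U}
include H

theorem tau_II (hφ : Phi S φ) (W : W4 S ω N φ lam mu a b c d) (h4 : finrank ℂ N = 4)
    (hII : TII S lam mu) : tau ω a d ∈ L := by
  have al := H.alt
  have zz : ∀ u, ω u u = 0 := fun u => by
    have := al u u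
    linear_combination (1 / 2) * this
  have hv : ∀ χ ∈ wts S N, χ (S.h (lam + lam)) = (S.R.pr (lam + lam) χ : ℂ) := fun χ hχ =>
    pr_eq hII.l2 hχ
  have v1 : lam (S.h (lam + lam)) = 1 := by
    rw [hv lam (by rw [W.w]; simp), hII.ll]; norm_num
  have v2 : mu (S.h (lam + lam)) = 0 := by
    rw [hv mu (by rw [W.w]; simp), hII.lm]; norm_num
  have key : (⊤ : Submodule ℂ U) ≤ LinearMap.ker
      (S.ι (S.h (lam + lam)) - (ω a d)⁻¹ • tau ω a d) := by
    refine ind_irr H.toTHyp0 (P := ⊤) (fun _ _ _ _ => trivial) (fun _ _ _ _ => trivial)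
      fun D hD _ => ?_
    rcases H.dich hD W.irr.stab (k_stab H W.irr h4) with h1 | h1
    · have h2 := W.irr.irr D h1 hD.stab hD.ne
      rw [h2]
      refine W.span.trans ?_
      rw [Submodule.span_le]
      intro u hu
      simp only [Set.mem_insert_iff, Set.mem_singleton_iff] at hu
      rw [SetLike.mem_coe, LinearMap.mem_ker, LinearMap.sub_apply, LinearMap.smul_apply, tau_apply,
        sub_eq_zero]
      rcases hu with rfl | rfl | rfl | rfl
      · rw [W.wa, v1, zz, zero_smul, zero_add, smul_smul, inv_mul_cancel₀ W.ad]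
      · rw [W.wb, v2, W.bd, al u a, W.ab]
        simp
      · rw [W.wc, LinearMap.neg_apply, v2, W.cd, al u a, W.ac]
        simp
      · rw [W.wd, LinearMap.neg_apply, v1, zz, zero_smul, add_zero, al u a, smul_smul, mul_neg,
          inv_mul_cancel₀ W.ad]
    · intro u hu
      have h2 := kill_of_not_act hD hII.l2 (noact_II H hφ W h4 hII hD h1) u hu
      have h3 := h1 hu
      rw [LinearMap.mem_ker, LinearMap.sub_apply, LinearMap.smul_apply, tau_apply, h2.2,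
        al u a, al u d, h3 a W.ma, h3 d W.md]
      simp
  have h1 : S.ι (S.h (lam + lam)) = (ω a d)⁻¹ • tau ω a d := by
    refine LinearMap.ext fun u => ?_
    have h2 := key (x := u) trivial
    rw [LinearMap.mem_ker, LinearMap.sub_apply, sub_eq_zero] at h2
    exact h2
  have h2 := L.smul_mem (ω a d) (S.ιmem (S.h (lam + lam)))
  rwa [h1, smul_smul, mul_inv_cancel₀ W.ad, one_smul] at h2

end TypeII

theorem span_fin {p : ℕ} {M : Submodule ℂ U} (B : Basis (Fin p) ℂ M) :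
    M ≤ Submodule.span ℂ (Set.range fun i => (B i : U)) := by
  intro u hu
  have h1 : ((∑ i, B.repr ⟨u, hu⟩ i • B i : M) : U) = u :=
    congrArg Subtype.val (B.sum_repr ⟨u, hu⟩)
  rw [← h1]
  simp only [AddSubmonoidClass.coe_finsetSum, Submodule.coe_smul]
  exact Submodule.sum_mem _ fun i _ => Submodule.smul_mem _ _ (Submodule.subset_span ⟨i, rfl⟩)

section TypeI

variable {S : RS L T} {N : Submodule ℂ U} {ω : U →ₗ[ℂ] U →ₗ[ℂ] ℂ} (H : Hyp4 L ω)
  {φ : Module.Dual ℂ T →ₗ[ℚ] ℚ} {lam mu : Module.Dual ℂ T} {a b c d : U}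
include H

theorem cube (hφ : Phi S φ) (W : W4 S ω N φ lam mu a b c d) (h4 : finrank ℂ N = 4)
    (hm : mu + mu ∈ S.R.Φ) (hl : lam = mu + mu + mu) : ∀ u ∈ oP ω N,
    S.ι (S.h (mu + mu)) (S.ι (S.h (mu + mu)) (S.ι (S.h (mu + mu)) u)) =
      S.ι (S.h (mu + mu)) u := by
  have hmm : S.R.pr (mu + mu) mu = 1 := by
    have := S.R.two _ hm
    rw [map_add] at this
    linarith
  obtain ⟨h, hh⟩ : ∃ h, h = S.ι (S.h (mu + mu)) := ⟨_, rfl⟩
  have key : oP ω N ≤ LinearMap.ker (h * h * h - h) := by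
    refine ind_irr H.toTHyp0 (H.oP_L W.irr.stab) (H.oP_K (k_stab H W.irr h4)) fun D hD hDN => ?_
    by_cases ha : Act S (mu + mu) D
    · have hw := act_I H hφ W h4 hm hl hD hDN ha
      obtain ⟨b', χ, W'⟩ := S.exists_wb hD
      rw [← W'.span, Submodule.span_le]
      rintro _ ⟨i, rfl⟩
      have h1 : χ i ∈ wts S D := ⟨b' i, W'.mem i, W'.ne i, W'.wt i⟩
      have h2 : h (b' i) = (S.R.pr (mu + mu) (χ i) : ℂ) • b' i := by
        rw [hh, W'.wt i, pr_eq hm h1]
      rw [hw] at h1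
      simp only [Set.mem_insert_iff, Set.mem_singleton_iff] at h1
      rw [SetLike.mem_coe, LinearMap.mem_ker, LinearMap.sub_apply, Module.End.mul_apply,
        Module.End.mul_apply, h2, map_smul, map_smul, h2, map_smul, h2]
      rcases h1 with h1 | h1
      · rw [h1, hmm]; simp
      · rw [h1, map_neg, hmm]; simp
    · intro u hu
      have h1 := (kill_of_not_act hD hm ha u hu).2
      rw [← hh] at h1
      rw [LinearMap.mem_ker, LinearMap.sub_apply, Module.End.mul_apply,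
        Module.End.mul_apply, h1]
      simp
  intro u hu
  have h1 := key hu
  rw [LinearMap.mem_ker, LinearMap.sub_apply, Module.End.mul_apply, Module.End.mul_apply,
    sub_eq_zero] at h1
  rw [← hh]
  exact h1

theorem eig (hφ : Phi S φ) (W : W4 S ω N φ lam mu a b c d) (h4 : finrank ℂ N = 4)
    (hm : mu + mu ∈ S.R.Φ) (hl : lam = mu + mu + mu) {u : U} (hu : u ∈ oP ω N) {r : ℂ}
    (hr : S.ι (S.h (mu + mu)) u = r • u) (hr3 : r * r * r ≠ r) : u = 0 := by
  have h1 := cube H hφ W h4 hm hl u hu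
  rw [hr, map_smul, hr, map_smul, map_smul, hr, smul_smul, smul_smul] at h1
  have h2 : (r * r * r - r) • u = 0 := by
    rw [sub_smul, sub_eq_zero]
    exact h1
  exact (smul_eq_zero.1 h2).resolve_left (sub_ne_zero.2 hr3)

/-- The eigenspaces on the complement. -/
def Mx (S : RS L T) (ω : U →ₗ[ℂ] U →ₗ[ℂ] ℂ) (N : Submodule ℂ U) (mu : Module.Dual ℂ T) (r : ℂ) :
    Submodule ℂ U :=
  oP ω N ⊓ LinearMap.ker (S.ι (S.h (mu + mu)) - r • 1)

omit H in
theorem mem_Mx {r : ℂ} {u : U} : u ∈ Mx S ω N mu r ↔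
    u ∈ oP ω N ∧ S.ι (S.h (mu + mu)) u = r • u := by
  unfold Mx
  rw [Submodule.mem_inf, LinearMap.mem_ker, LinearMap.sub_apply, LinearMap.smul_apply,
    Module.End.one_apply, sub_eq_zero]

omit H in
theorem hE {γ : Module.Dual ℂ T} (hγ : γ ∈ S.R.Φ) {δ : Module.Dual ℂ T} {r s : ℂ}
    (hs : γ (S.h δ) = s) {u : U} (hu : S.ι (S.h δ) u = r • u) :
    S.ι (S.h δ) (S.e γ u) = (r + s) • S.e γ u := by
  have h1 := LinearMap.congr_fun (S.wt γ hγ (S.h δ)) u
  rw [LinearMap.sub_apply, Module.End.mul_apply, Module.End.mul_apply, LinearMap.smul_apply, hs,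
    hu, map_smul, sub_eq_iff_eq_add] at h1
  rw [h1]
  module

omit H in
theorem two_val (hm : mu + mu ∈ S.R.Φ) : (mu + mu) (S.h (mu + mu)) = 2 := S.two hm

theorem Mx_dim (hφ : Phi S φ) (W : W4 S ω N φ lam mu a b c d) (h4 : finrank ℂ N = 4)
    (hm : mu + mu ∈ S.R.Φ) (hl : lam = mu + mu + mu) :
    finrank ℂ (Mx S ω N mu 1) ≤ 2 ∧ finrank ℂ (Mx S ω N mu (-1)) ≤ 2 := by
  have hn := S.R.neg _ hm
  have hML := H.oP_L W.irr.stab
  have hMK := H.oP_K (k_stab H W.irr h4)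
  have two := two_val (S := S) hm
  have two' : (-(mu + mu)) (S.h (mu + mu)) = -2 := by rw [LinearMap.neg_apply, two]
  -- the dimensions agree
  have hbr : ∀ u, S.e (mu + mu) (S.e (-(mu + mu)) u) - S.e (-(mu + mu)) (S.e (mu + mu) u) =
      S.ι (S.h (mu + mu)) u := fun u => LinearMap.congr_fun (S.br _ hm) u
  have mapF : ∀ u ∈ Mx S ω N mu 1, S.e (-(mu + mu)) u ∈ Mx S ω N mu (-1) := by
    intro u hu
    rw [mem_Mx] at hu ⊢
    refine ⟨hML _ (S.emem _ hn) _ hu.1, ?_⟩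
    rw [hE hn two' hu.2]
    norm_num
  have mapE : ∀ u ∈ Mx S ω N mu (-1), S.e (mu + mu) u ∈ Mx S ω N mu 1 := by
    intro u hu
    rw [mem_Mx] at hu ⊢
    refine ⟨hML _ (S.emem _ hm) _ hu.1, ?_⟩
    rw [hE hm two hu.2]
    norm_num
  have injF : ∀ u ∈ Mx S ω N mu 1, S.e (-(mu + mu)) u = 0 → u = 0 := by
    intro u hu h0
    rw [mem_Mx] at hu
    have h1 : S.e (mu + mu) u = 0 := by
      refine eig H hφ W h4 hm hl (hML _ (S.emem _ hm) _ hu.1) (hE hm two hu.2) (by norm_num)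
    have h2 := hbr u
    rw [h0, h1, map_zero, map_zero, sub_zero, hu.2, one_smul] at h2
    exact h2.symm
  have injE : ∀ u ∈ Mx S ω N mu (-1), S.e (mu + mu) u = 0 → u = 0 := by
    intro u hu h0
    rw [mem_Mx] at hu
    have h1 : S.e (-(mu + mu)) u = 0 := by
      refine eig H hφ W h4 hm hl (hML _ (S.emem _ hn) _ hu.1) (hE hn two' hu.2) (by norm_num)
    have h2 := hbr u
    rw [h0, h1, map_zero, map_zero, sub_zero, hu.2, neg_smul, one_smul] at h2
    exact neg_eq_zero.1 h2.symm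
  have d1 : finrank ℂ (Mx S ω N mu 1) ≤ finrank ℂ (Mx S ω N mu (-1)) := by
    refine LinearMap.finrank_le_finrank_of_injective
      (f := (S.e (-(mu + mu))).restrict mapF) ?_
    rw [injective_iff_map_eq_zero]
    intro u hu
    refine Subtype.ext (injF u.1 u.2 ?_)
    exact congrArg Subtype.val hu
  have d2 : finrank ℂ (Mx S ω N mu (-1)) ≤ finrank ℂ (Mx S ω N mu 1) := by
    refine LinearMap.finrank_le_finrank_of_injective
      (f := (S.e (mu + mu)).restrict mapE) ?_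
    rw [injective_iff_map_eq_zero]
    intro u hu
    refine Subtype.ext (injE u.1 u.2 ?_)
    exact congrArg Subtype.val hu
  -- the sum
  have hdis : Mx S ω N mu 1 ⊓ Mx S ω N mu (-1) = ⊥ := by
    rw [eq_bot_iff]
    rintro u ⟨h1, h2⟩
    rw [SetLike.mem_coe, mem_Mx] at h1 h2
    rw [Submodule.mem_bot]
    have h3 : (2 : ℂ) • u = 0 := by
      have h4 : (1 : ℂ) • u = (-1 : ℂ) • u := h1.2.symm.trans h2.2
      have h5 : (2 : ℂ) • u = (1 : ℂ) • u - (-1 : ℂ) • u := by module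
      rw [h5, h4, sub_self]
    exact (smul_eq_zero.1 h3).resolve_left two_ne_zero
  have hsum := Submodule.finrank_sup_add_finrank_inf_eq (Mx S ω N mu 1) (Mx S ω N mu (-1))
  rw [hdis, finrank_bot, add_zero] at hsum
  suffices h : finrank ℂ ↥(Mx S ω N mu 1 ⊔ Mx S ω N mu (-1)) ≤ 4 by omega
  by_cases hex : ∃ D, IrrSub L D ∧ D ≤ oP ω N ∧ Act S (mu + mu) D
  · obtain ⟨D0, hD0, hD0N, ha0⟩ := hex
    have hw0 := act_I H hφ W h4 hm hl hD0 hD0N ha0
    have hQL := PK_L hD0.stab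
    have hQK := PK_K (L := L) (N := D0)
    have hQM : PK L D0 ≤ oP ω N := by
      unfold PK
      rw [Submodule.span_le]
      rintro _ ⟨k, hk, u, hu, rfl⟩
      exact hMK k hk u (hD0N hu)
    refine le_trans (Submodule.finrank_mono ?_) (H.pk D0 hD0)
    -- the operator vanishes outside
    have hker : oP ω N ⊓ oP ω (PK L D0) ≤ LinearMap.ker (S.ι (S.h (mu + mu))) := by
      refine ind_irr H.toTHyp0 (P := oP ω N ⊓ oP ω (PK L D0))
        (fun x hx u hu => ⟨hML x hx u hu.1, H.oP_L hQL x hx u hu.2⟩)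
        (fun x hx u hu => ⟨hMK x hx u hu.1, H.oP_K hQK x hx u hu.2⟩) fun D hD hDle u hu => ?_
      by_cases ha : Act S (mu + mu) D
      · exfalso
        have hw := act_I H hφ W h4 hm hl hD (hDle.trans inf_le_left) ha
        exact same_wts H.toTHyp0 S hQL hQK hD0 hD le_PK (hDle.trans inf_le_right)
          (hw0.trans hw.symm)
      · exact (kill_of_not_act hD hm ha u hu).2
    obtain ⟨hs1, hs2⟩ := H.sup_oP (P := PK L D0) (H.abs _ hQL hQK)
    have hin : ∀ r : ℂ, r ≠ 0 → Mx S ω N mu r ≤ PK L D0 := by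
      intro r hr u hu
      rw [mem_Mx] at hu
      have h1 : u ∈ PK L D0 ⊔ oP ω (PK L D0) := by rw [hs1]; trivial
      obtain ⟨q, hq, s, hs, rfl⟩ := Submodule.mem_sup.1 h1
      have h2 : s ∈ oP ω N := by
        have h3 : s = (q + s) - q := by abel
        rw [h3]
        exact Submodule.sub_mem _ hu.1 (hQM hq)
      have h3 : S.ι (S.h (mu + mu)) s = 0 := hker ⟨h2, hs⟩
      have h4 := hu.2
      rw [map_add, h3, add_zero, smul_add] at h4
      have h5 : r • s ∈ PK L D0 := by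
        have h6 : r • s = S.ι (S.h (mu + mu)) q - r • q := by rw [h4]; abel
        rw [h6]
        exact Submodule.sub_mem _ (hQL _ (S.ιmem _) _ hq) (Submodule.smul_mem _ _ hq)
      have h6 : s ∈ PK L D0 := by
        have h7 := Submodule.smul_mem _ r⁻¹ h5
        rwa [smul_smul, inv_mul_cancel₀ hr, one_smul] at h7
      exact Submodule.add_mem _ hq h6
    exact sup_le (hin 1 one_ne_zero) (hin (-1) (by norm_num))
  · have hker : oP ω N ≤ LinearMap.ker (S.ι (S.h (mu + mu))) := by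
      refine ind_irr H.toTHyp0 hML hMK fun D hD hDle u hu => ?_
      have ha : ¬ Act S (mu + mu) D := fun ha => hex ⟨D, hD, hDle, ha⟩
      exact (kill_of_not_act hD hm ha u hu).2
    have hz : ∀ r : ℂ, r ≠ 0 → Mx S ω N mu r ≤ ⊥ := by
      intro r hr u hu
      rw [mem_Mx] at hu
      have h1 : S.ι (S.h (mu + mu)) u = 0 := hker hu.1
      rw [hu.2] at h1
      rw [Submodule.mem_bot]
      exact (smul_eq_zero.1 h1).resolve_left hr
    have h1 := sup_le (hz 1 one_ne_zero) (hz (-1) (by norm_num))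
    rw [eq_bot_iff.2 h1, finrank_bot]
    norm_num

omit H in
theorem card_aux {p q r : ℕ} (hp : p ≤ 2) (hq : q ≤ 2) (x : Fin 4 ⊕ (Fin p ⊕ (Fin q ⊕ Fin r)) → ℤ)
    (hx : x = Sum.elim ![3, 1, -1, -3] (Sum.elim (fun _ => 1) (Sum.elim (fun _ => -1)
      fun _ => 0))) : (Finset.univ.filter fun j => x j = -1).card ≤ 3 ∧
      (Finset.univ.filter fun j => x j = 1).card ≤ 3 := by
  rw [Finset.card_filter, Finset.card_filter]
  rw [hx]
  constructor
  · rw [Fintype.sum_sum_type, Fintype.sum_sum_type, Fintype.sum_sum_type]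
    simp [Fin.sum_univ_four]
    omega
  · rw [Fintype.sum_sum_type, Fintype.sum_sum_type, Fintype.sum_sum_type]
    simp [Fin.sum_univ_four]
    omega

theorem tau_I (hφ : Phi S φ) (W : W4 S ω N φ lam mu a b c d) (h4 : finrank ℂ N = 4)
    (hm : mu + mu ∈ S.R.Φ) (hl : lam = mu + mu + mu) {ι : Type} [Fintype ι] [DecidableEq ι]
    {Ψ : MultilinearMap ℂ (fun _ : ι => U) ℂ} (hA : IsAlt Ψ) (hΨ : L ≤ KL Ψ) :
    tau ω a d ∈ KL Ψ := by
  classical
  have al := H.alt
  have zz : ∀ u, ω u u = 0 := fun u => by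
    have := al u u
    linear_combination (1 / 2) * this
  have hn := S.R.neg _ hm
  have hML := H.oP_L W.irr.stab
  have two := two_val (S := S) hm
  have two' : (-(mu + mu)) (S.h (mu + mu)) = -2 := by rw [LinearMap.neg_apply, two]
  have v1 : mu (S.h (mu + mu)) = 1 := by
    rw [LinearMap.add_apply] at two
    linear_combination (1 / 2) * two
  have v3 : lam (S.h (mu + mu)) = 3 := by
    rw [hl, LinearMap.add_apply, LinearMap.add_apply, v1]
    norm_num
  obtain ⟨hd1, hd2⟩ := Mx_dim H hφ W h4 hm hl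
  obtain ⟨h, hh⟩ : ∃ h, h = S.ι (S.h (mu + mu)) := ⟨_, rfl⟩
  let B1 := Module.finBasis ℂ (Mx S ω N mu 1)
  let B2 := Module.finBasis ℂ (Mx S ω N mu (-1))
  let B3 := Module.finBasis ℂ (Mx S ω N mu 0)
  let b' : Fin 4 ⊕ (Fin (finrank ℂ (Mx S ω N mu 1)) ⊕ (Fin (finrank ℂ (Mx S ω N mu (-1))) ⊕
      Fin (finrank ℂ (Mx S ω N mu 0)))) → U := Sum.elim ![a, b, c, d] (Sum.elim
      (fun i => (B1 i : U)) (Sum.elim (fun i => (B2 i : U)) fun i => (B3 i : U)))
  obtain ⟨x, hx⟩ : ∃ x : Fin 4 ⊕ (Fin (finrank ℂ (Mx S ω N mu 1)) ⊕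
      (Fin (finrank ℂ (Mx S ω N mu (-1))) ⊕ Fin (finrank ℂ (Mx S ω N mu 0)))) → ℤ,
      x = Sum.elim ![3, 1, -1, -3] (Sum.elim (fun _ => 1) (Sum.elim (fun _ => -1)
      fun _ => 0)) := ⟨_, rfl⟩
  obtain ⟨hc1, hc2⟩ := card_aux hd1 hd2 x hx
  have m1 : ∀ i, (B1 i : U) ∈ oP ω N ∧ S.ι (S.h (mu + mu)) (B1 i : U) = (1 : ℂ) • (B1 i : U) :=
    fun i => mem_Mx.1 (B1 i).2
  have m2 : ∀ i, (B2 i : U) ∈ oP ω N ∧ S.ι (S.h (mu + mu)) (B2 i : U) = (-1 : ℂ) • (B2 i : U) :=
    fun i => mem_Mx.1 (B2 i).2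
  have m3 : ∀ i, (B3 i : U) ∈ oP ω N ∧ S.ι (S.h (mu + mu)) (B3 i : U) = (0 : ℂ) • (B3 i : U) :=
    fun i => mem_Mx.1 (B3 i).2
  -- the eigenvalues
  have hxb : ∀ j, h (b' j) = (x j : ℂ) • b' j := by
    rw [hh, hx]
    rintro (j | j | j | j)
    · fin_cases j
      · change S.ι (S.h (mu + mu)) a = ((3 : ℤ) : ℂ) • a
        rw [W.wa, v3]; norm_num
      · change S.ι (S.h (mu + mu)) b = ((1 : ℤ) : ℂ) • b
        rw [W.wb, v1]; norm_num
      · change S.ι (S.h (mu + mu)) c = ((-1 : ℤ) : ℂ) • c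
        rw [W.wc, LinearMap.neg_apply, v1]; norm_num
      · change S.ι (S.h (mu + mu)) d = ((-3 : ℤ) : ℂ) • d
        rw [W.wd, LinearMap.neg_apply, v3]; norm_num
    · change S.ι (S.h (mu + mu)) (B1 j : U) = ((1 : ℤ) : ℂ) • (B1 j : U)
      rw [(m1 j).2]; norm_num
    · change S.ι (S.h (mu + mu)) (B2 j : U) = ((-1 : ℤ) : ℂ) • (B2 j : U)
      rw [(m2 j).2]; norm_num
    · change S.ι (S.h (mu + mu)) (B3 j : U) = ((0 : ℤ) : ℂ) • (B3 j : U)
      rw [(m3 j).2]; norm_num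
  have hspan : Submodule.span ℂ (Set.range b') = ⊤ := by
    rw [eq_top_iff]
    have h1 := (H.sup_oP (H.abs N W.irr.stab (k_stab H W.irr h4))).1
    rw [← h1]
    refine sup_le (W.span.trans ?_) ?_
    · rw [Submodule.span_le]
      intro u hu
      simp only [Set.mem_insert_iff, Set.mem_singleton_iff] at hu
      rcases hu with rfl | rfl | rfl | rfl
      · exact Submodule.subset_span ⟨Sum.inl 0, rfl⟩
      · exact Submodule.subset_span ⟨Sum.inl 1, rfl⟩
      · exact Submodule.subset_span ⟨Sum.inl 2, rfl⟩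
      · exact Submodule.subset_span ⟨Sum.inl 3, rfl⟩
    · have e1 : Mx S ω N mu 1 ≤ Submodule.span ℂ (Set.range b') := by
        refine (span_fin B1).trans (Submodule.span_mono ?_)
        rintro _ ⟨i, rfl⟩
        exact ⟨Sum.inr (Sum.inl i), rfl⟩
      have e2 : Mx S ω N mu (-1) ≤ Submodule.span ℂ (Set.range b') := by
        refine (span_fin B2).trans (Submodule.span_mono ?_)
        rintro _ ⟨i, rfl⟩
        exact ⟨Sum.inr (Sum.inr (Sum.inl i)), rfl⟩
      have e3 : Mx S ω N mu 0 ≤ Submodule.span ℂ (Set.range b') := by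
        refine (span_fin B3).trans (Submodule.span_mono ?_)
        rintro _ ⟨i, rfl⟩
        exact ⟨Sum.inr (Sum.inr (Sum.inr i)), rfl⟩
      intro u hu
      have hc := cube H hφ W h4 hm hl u hu
      rw [← hh] at hc
      have hhM : ∀ v ∈ oP ω N, h v ∈ oP ω N := fun v hv => by
        rw [hh]; exact hML _ (S.ιmem _) v hv
      have k1 : (2⁻¹ : ℂ) • (h (h u) + h u) ∈ Mx S ω N mu 1 := by
        rw [mem_Mx]
        refine ⟨Submodule.smul_mem _ _ (Submodule.add_mem _ (hhM _ (hhM _ hu)) (hhM _ hu)), ?_⟩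
        rw [← hh, map_smul, map_add, hc, one_smul, add_comm (h u)]
      have k2 : (2⁻¹ : ℂ) • (h (h u) - h u) ∈ Mx S ω N mu (-1) := by
        rw [mem_Mx]
        refine ⟨Submodule.smul_mem _ _ (Submodule.sub_mem _ (hhM _ (hhM _ hu)) (hhM _ hu)), ?_⟩
        rw [← hh, map_smul, map_sub, hc]
        module
      have k3 : u - h (h u) ∈ Mx S ω N mu 0 := by
        rw [mem_Mx]
        refine ⟨Submodule.sub_mem _ hu (hhM _ (hhM _ hu)), ?_⟩
        rw [← hh, map_sub, hc, sub_self, zero_smul]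
      have k4 : u = (2⁻¹ : ℂ) • (h (h u) + h u) + (2⁻¹ : ℂ) • (h (h u) - h u) +
          (u - h (h u)) := by module
      rw [k4]
      exact Submodule.add_mem _ (Submodule.add_mem _ (e1 k1) (e2 k2)) (e3 k3)
  -- the frame
  have hNs : Stab L N := W.irr.stab
  obtain ⟨e1, h1⟩ := W.sb _ (hNs _ (S.emem _ hm) _ W.mc) (wt_mem hm W.wc (by abel))
  obtain ⟨e2, h2⟩ := W.sc _ (hNs _ (S.emem _ hm) _ W.md) (wt_mem hm W.wd (by rw [hl]; abel))
  obtain ⟨f1, k1⟩ := W.sb _ (hNs _ (S.emem _ hn) _ W.ma) (wt_mem hn W.wa (by rw [hl]; abel))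
  obtain ⟨f2, k2⟩ := W.sc _ (hNs _ (S.emem _ hn) _ W.mb) (wt_mem hn W.wb (by abel))
  have hmm : S.R.pr (mu + mu) mu = 1 := by
    have := S.R.two _ hm
    rw [map_add] at this
    linarith
  have hf2 : f2 ≠ 0 := by
    rintro rfl
    rw [zero_smul] at k2
    refine nz_of hn W.b0 W.wb ?_ k2
    rw [S.R.pneg _ hm, hmm]
  have he1 : e1 ≠ 0 := by
    rintro rfl
    rw [zero_smul] at h1
    refine nz_of hm W.c0 W.wc ?_ h1
    rw [map_neg, hmm]
  have hhL : h ∈ L := by rw [hh]; exact S.ιmem _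
  have fz : ∀ u ∈ oP ω N, ∀ r : ℂ, S.ι (S.h (mu + mu)) u = r • u → (r = 0 ∨ r = -1) →
      S.e (-(mu + mu)) u = 0 := by
    intro u hu r hr hr'
    refine eig H hφ W h4 hm hl (hML _ (S.emem _ hn) _ hu) (hE hn two' hr) ?_
    rcases hr' with rfl | rfl <;> norm_num
  have ez : ∀ u ∈ oP ω N, ∀ r : ℂ, S.ι (S.h (mu + mu)) u = r • u → (r = 0 ∨ r = 1) →
      S.e (mu + mu) u = 0 := by
    intro u hu r hr hr'
    refine eig H hφ W h4 hm hl (hML _ (S.emem _ hm) _ hu) (hE hm two hr) ?_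
    rcases hr' with rfl | rfl <;> norm_num
  refine diag_mem hA hspan (k3 := Sum.inl 0) (m3 := Sum.inl 3) (by simp) ?_ (r := ω a d) ?_ ?_ ?_
  · intro t ht
    constructor
    · rintro ⟨i, hi⟩
      refine occ hA (x := x) (h := h) (f := S.e (-(mu + mu))) hxb (hΨ hhL) (hΨ (S.emem _ hn))
        (k3 := Sum.inl 0) (k1 := Sum.inl 1) (m1 := Sum.inl 2) (m3 := Sum.inl 3) ?_ ?_ ?_ ?_ hc1
        ⟨f1, k1⟩ ⟨f2, hf2, k2⟩ ?_ ht hi
      · rw [hx]; rfl
      · rw [hx]; rfl
      · rw [hx]; rfl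
      · rw [hx]
        rintro (j | j | j | j) hj
        · fin_cases j
          · change (-1 : ℤ) ≤ 3; norm_num
          · change (-1 : ℤ) ≤ 1; norm_num
          · change (-1 : ℤ) ≤ -1; norm_num
          · exact absurd rfl hj
        · change (-1 : ℤ) ≤ 1; norm_num
        · change (-1 : ℤ) ≤ -1; norm_num
        · change (-1 : ℤ) ≤ 0; norm_num
      · rw [hx]
        rintro (j | j | j | j) hj1 hj3 hj
        · fin_cases j
          · exfalso
            change (3 : ℤ) = 0 ∨ (3 : ℤ) = -1 at hj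
            norm_num at hj
          · exfalso
            change (1 : ℤ) = 0 ∨ (1 : ℤ) = -1 at hj
            norm_num at hj
          · exact absurd rfl hj1
          · exact absurd rfl hj3
        · exfalso
          change (1 : ℤ) = 0 ∨ (1 : ℤ) = -1 at hj
          norm_num at hj
        · exact fz _ (m2 j).1 _ (m2 j).2 (Or.inr rfl)
        · exact fz _ (m3 j).1 _ (m3 j).2 (Or.inl rfl)
    · rintro ⟨i, hi⟩
      refine occ hA (x := fun j => -x j) (h := -h) (f := S.e (mu + mu)) ?_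
        ((KL Ψ).neg_mem (hΨ hhL)) (hΨ (S.emem _ hm))
        (k3 := Sum.inl 3) (k1 := Sum.inl 2) (m1 := Sum.inl 1) (m3 := Sum.inl 0) ?_ ?_ ?_ ?_ ?_
        ⟨e2, h2⟩ ⟨e1, he1, h1⟩ ?_ ht hi
      · intro j
        rw [LinearMap.neg_apply, hxb j]
        push_cast
        rw [neg_smul]
      · rw [hx]; rfl
      · rw [hx]; rfl
      · rw [hx]; rfl
      · rw [hx]
        rintro (j | j | j | j) hj
        · fin_cases j
          · exact absurd rfl hj
          · change (-1 : ℤ) ≤ -1; norm_num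
          · change (-1 : ℤ) ≤ 1; norm_num
          · change (-1 : ℤ) ≤ 3; norm_num
        · change (-1 : ℤ) ≤ -1; norm_num
        · change (-1 : ℤ) ≤ 1; norm_num
        · change (-1 : ℤ) ≤ 0; norm_num
      · refine le_trans (le_of_eq ?_) hc2
        congr 1
        refine Finset.filter_congr fun j _ => ?_
        constructor
        · intro h5; omega
        · intro h5; omega
      · rw [hx]
        rintro (j | j | j | j) hj1 hj3 hj
        · fin_cases j
          · exact absurd rfl hj3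
          · exact absurd rfl hj1
          · exfalso
            change (1 : ℤ) = 0 ∨ (1 : ℤ) = -1 at hj
            norm_num at hj
          · exfalso
            change (3 : ℤ) = 0 ∨ (3 : ℤ) = -1 at hj
            norm_num at hj
        · exact ez _ (m1 j).1 _ (m1 j).2 (Or.inr rfl)
        · exfalso
          change (1 : ℤ) = 0 ∨ (1 : ℤ) = -1 at hj
          norm_num at hj
        · exact ez _ (m3 j).1 _ (m3 j).2 (Or.inl rfl)
  · change tau ω a d a = ω a d • a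
    rw [tau_apply, zz, zero_smul, zero_add]
  · change tau ω a d d = (-ω a d) • d
    rw [tau_apply, zz, zero_smul, add_zero, al d a]
  · rintro (j | j | j | j) hj1 hj2
    · fin_cases j
      · exact absurd rfl hj1
      · change tau ω a d b = 0
        rw [tau_apply, W.bd, al b a, W.ab]
        simp
      · change tau ω a d c = 0
        rw [tau_apply, W.cd, al c a, W.ac]
        simp
      · exact absurd rfl hj2
    · change tau ω a d (B1 j : U) = 0
      rw [tau_apply, al _ a, al _ d, (m1 j).1 a W.ma, (m1 j).1 d W.md]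
      simp
    · change tau ω a d (B2 j : U) = 0
      rw [tau_apply, al _ a, al _ d, (m2 j).1 a W.ma, (m2 j).1 d W.md]
      simp
    · change tau ω a d (B3 j : U) = 0
      rw [tau_apply, al _ a, al _ d, (m3 j).1 a W.ma, (m3 j).1 d W.md]
      simp

end TypeI

end Pool.Agent.W5h25.AS
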